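import Pool.Agent.N26.Lcs426b

/-!
`MP_426edc_al`, Q1 (negative answer): the group `B_3(A_5(ℤ))` contains a multilinear element
of order `3`, i.e. a torsion element of degree `1` with respect to every variable whose order
does not divide `1`.
-/

namespace Pool.Agent.Results.MP_426edc_al.MultilinearThreeTorsion

open Pool.Agent.N26.Lcs426

/-- There is an element `T` of order exactly `3` in the multilinear component
`B_3(A_5(ℤ))[1,1,1,1,1]`, of degree `1` with respect to each of the five variables; so the
statement `Q1` is false. -/
theorem result :
    (∃ T : B 5 3, addOrderOf T = 3 ∧ HasMultidegree (fun _ => 1) T ∧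
      ∀ j : Fin 5, HasDegree j 1 T) ∧ ¬ Q1 :=
  Pool.Agent.N26.Lcs426.main

end Pool.Agent.Results.MP_426edc_al.MultilinearThreeTorsion
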